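import Pool.Agent.helper80.SV.Spec3

set_option autoImplicit false

namespace Pool.Agent.SV

open MvPolynomial Module

theorem ALN_pos (hZ : Z0_stmt) (k : ℕ) (n d : Fin k → ℕ) (hn : ∀ i, 1 ≤ n i)
    (h : ¬ (Special n d ↔
      ((∃ i, d i = 0) ∧ 2 ≤ ∑ i, d i) ∨ ((∀ i, 1 ≤ d i) ∧ Crit n d))) :
    (∀ i, 1 ≤ d i) ∧ ¬ (Special n d ↔ Crit n d) := by
  by_cases h0 : ∃ i, d i = 0
  · exfalso
    apply h
    rw [hZ k n d hn h0]
    constructor
    · intro h2
      exact Or.inl ⟨h0, h2⟩
    · rintro (h2 | h2)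
      · exact h2.2
      · obtain ⟨i, hi⟩ := h0
        have := h2.1 i
        omega
  · have h1 : ∀ i, 1 ≤ d i := by
      intro i
      by_contra h2
      exact h0 ⟨i, by omega⟩
    refine ⟨h1, fun h2 => h ?_⟩
    rw [h2]
    constructor
    · intro h3
      exact Or.inr ⟨h1, h3⟩
    · rintro (h3 | h3)
      · exact absurd h3.1 h0
      · exact h3.2

theorem ALN_fin (hE : E1K_stmt) (k : ℕ) (n : Fin k → ℕ) (hk : 4 ≤ k) (hn : ∀ i, 1 ≤ n i)
    (l : Fin k) : {d : Fin k → ℕ | n l = 1 ∧ (∀ i, i ≠ l → d i = 1) ∧ Special n d}.Finite := by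
  by_cases hl : n l = 1
  · obtain ⟨e₀, he⟩ := hE k n hk hn l hl
    apply Set.Finite.subset
      ((Finset.finite_toSet (Finset.range e₀)).image
        (fun e => Function.update (fun _ : Fin k => 1) l e))
    rintro d ⟨_, h1, h2⟩
    have h3 : d l < e₀ := by
      by_contra h4
      exact he d h1 (not_lt.1 h4) h2
    refine ⟨d l, ?_, ?_⟩
    · simpa using h3
    · funext i
      by_cases hi : i = l
      · subst hi; simp
      · simp only [Function.update_of_ne hi]
        exact (h1 i hi).symm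
  · apply Set.Finite.subset Set.finite_empty
    rintro d ⟨h1, _⟩
    exact absurd h1 hl

theorem ALN (hF : FIN_stmt) (hK : K23_stmt) (hE : E1K_stmt) (hZ : Z0_stmt) : ALN_stmt := by
  intro k n hk hn
  by_cases h23 : k = 2 ∨ k = 3
  · apply Set.Finite.subset (hK k n h23 hn)
    intro d hd
    exact ALN_pos hZ k n d hn hd
  · have hk4 : 4 ≤ k := by
      have h2 : k ≠ 2 := fun h => h23 (Or.inl h)
      have h3 : k ≠ 3 := fun h => h23 (Or.inr h)
      omega
    apply Set.Finite.subset ((hF k n hk hn).union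
      (Set.finite_iUnion (fun l : Fin k => ALN_fin hE k n hk4 hn l)))
    intro d hd
    obtain ⟨h1, h2⟩ := ALN_pos hZ k n d hn hd
    have hc : ¬ Crit n d := by
      rintro (h | h)
      · exact h23 (Or.inl h.1)
      · exact h23 (Or.inr h.1)
    have hs : Special n d := by
      by_contra h3
      exact h2 (iff_of_false h3 hc)
    by_cases h4 : ∃ l, n l = 1 ∧ ∀ i, i ≠ l → d i = 1
    · right
      obtain ⟨l, hl, h5⟩ := h4
      exact Set.mem_iUnion.2 ⟨l, hl, h5, hs⟩
    · left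
      refine ⟨h1, hs, h4, ?_⟩
      rintro ⟨h5, _⟩
      exact h23 (Or.inl h5)

end Pool.Agent.SV
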