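import Pool.Agent.helper80.SV.Spec

/-!
# sv:RKL: lower bound for the rank of the gradient at one point
-/

set_option autoImplicit false
set_option linter.unusedSectionVars false

namespace Pool.Agent.SV

open MvPolynomial Module

section
variable {ι κ : Type} [Fintype ι] [DecidableEq ι] [Fintype κ] [DecidableEq κ]

/-- vectors in the range give a lower bound for the rank -/
theorem RKL_rank {E : Type} [AddCommGroup E] [Module ℂ E] {I : Type} [Fintype I]
    (L : E →ₗ[ℂ] (ι → ℂ)) (v : I → ι → ℂ) (hv : LinearIndependent ℂ v)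
    (h : ∀ i, ∃ e, L e = v i) : Fintype.card I ≤ finrank ℂ (LinearMap.range L) := by
  choose e he using h
  let w : I → LinearMap.range L := fun i => ⟨v i, e i, he i⟩
  have hw : LinearIndependent ℂ w := by
    refine LinearIndependent.of_comp (LinearMap.range L).subtype ?_
    exact hv
  exact hw.fintype_card_le_finrank

/-- the exponents of `g₀` -/
noncomputable def RKL_D (c : ι → κ) (o : κ → ι) (d : κ → ℕ) : ι →₀ ℕ :=
  Finsupp.equivFunOnFinite.symm fun j => if j = o (c j) then d (c j) else 0

/-- the exponents of `g_i` -/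
noncomputable def RKL_M (c : ι → κ) (o : κ → ι) (d : κ → ℕ) (i : ι) : ι →₀ ℕ :=
  Finsupp.equivFunOnFinite.symm fun j => (if j = i then 1 else 0) +
    (if j = o (c j) then d (c j) - (if c j = c i then 1 else 0) else 0)

theorem RKL_D_apply (c : ι → κ) (o : κ → ι) (d : κ → ℕ) (j : ι) :
    RKL_D c o d j = if j = o (c j) then d (c j) else 0 := rfl

theorem RKL_M_apply (c : ι → κ) (o : κ → ι) (d : κ → ℕ) (i j : ι) :
    RKL_M c o d i j = (if j = i then 1 else 0) +
      (if j = o (c j) then d (c j) - (if c j = c i then 1 else 0) else 0) := rfl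

theorem RKL_sum (c : ι → κ) (o : κ → ι) (ho : ∀ k, c (o k) = k) (F : κ → ℕ) (k : κ) :
    ∑ j ∈ Finset.univ.filter (fun j => c j = k), (if j = o (c j) then F (c j) else 0) = F k := by
  rw [Finset.sum_eq_single (o k)]
  · rw [ho, if_pos rfl]
  · intro j hj hne
    rw [Finset.mem_filter] at hj
    rw [if_neg]
    rw [hj.2]
    exact hne
  · intro h
    exfalso
    apply h
    rw [Finset.mem_filter]
    exact ⟨Finset.mem_univ _, ho k⟩

theorem RKL_D_mem (c : ι → κ) (A : Finset ι) (o : κ → ι) (ho : ∀ k, c (o k) = k)
    (hoA : ∀ k, o k ∈ A) (d : κ → ℕ) : RKL_D c o d ∈ Mon c A d := by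
  constructor
  · intro i hi
    rw [RKL_D_apply, if_neg]
    intro h
    exact hi (h ▸ hoA _)
  · intro k
    exact RKL_sum c o ho d k

theorem RKL_M_mem (c : ι → κ) (A : Finset ι) (o : κ → ι) (ho : ∀ k, c (o k) = k)
    (hoA : ∀ k, o k ∈ A) (d : κ → ℕ) (i : ι) (hi : i ∈ A) (hd : 1 ≤ d (c i)) :
    RKL_M c o d i ∈ Mon c A d := by
  constructor
  · intro j hj
    rw [RKL_M_apply, if_neg, if_neg]
    · intro h
      exact hj (h ▸ hoA _)
    · rintro rfl
      exact hj hi
  · intro k
    have h1 : ∀ j, RKL_M c o d i j = (if j = i then 1 else 0) +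
      (if j = o (c j) then (fun k => d k - (if k = c i then 1 else 0)) (c j) else 0) :=
      fun j => rfl
    rw [Finset.sum_congr rfl (fun j _ => h1 j), Finset.sum_add_distrib,
      RKL_sum c o ho (fun k => d k - (if k = c i then 1 else 0)) k]
    simp only [Finset.sum_ite_eq', Finset.mem_filter, Finset.mem_univ, true_and]
    by_cases hk : c i = k
    · subst hk
      simp only [if_true]
      omega
    · rw [if_neg hk, if_neg (Ne.symm hk)]
      omega

/-- value of a derivative of a monomial -/
theorem RKL_eval (x : ι → ℂ) (m : ι →₀ ℕ) (j : ι) :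
    eval x (pderiv j (monomial m (1 : ℂ))) =
      (m j : ℂ) * ∏ i, x i ^ ((m - Finsupp.single j 1 : ι →₀ ℕ) i) := by
  rw [pderiv_monomial, eval_monomial, one_mul]
  congr 1
  exact Finsupp.prod_fintype _ _ (fun i => pow_zero _)

theorem RKL_mono (c : ι → κ) (A : Finset ι) (d : κ → ℕ) (m : ι →₀ ℕ) (hm : m ∈ Mon c A d) :
    monomial m (1 : ℂ) ∈ Sec c A d := by
  rw [mem_Sec]
  intro m' hm'
  rw [coeff_monomial] at hm'
  by_cases h : m = m'
  · rw [← h]
    exact hm
  · rw [if_neg h] at hm'
    exact absurd rfl hm'

end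

theorem RKL (hCUT : CUT_stmt) : RKL_stmt := by
  classical
  intro ι κ _ _ _ _ c A B d hAB hcol hd
  choose o hoA ho using hcol
  let x : ι → ℂ := fun i => if i = o (c i) then 1 else 0
  have hx1 : ∀ i, i = o (c i) → x i = 1 := fun i h => if_pos h
  have hx0 : ∀ i, i ≠ o (c i) → x i = 0 := fun i h => if_neg h
  have hcut : cut A x = x := by
    funext i
    unfold cut
    by_cases h : i ∈ A
    · rw [if_pos h]
    · rw [if_neg h, hx0]
      intro h2
      exact h (h2 ▸ hoA _)
  let I : Finset ι := A.filter (fun i => 1 ≤ d (c i) ∧ i ≠ o (c i))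
  let u : ι → ℂ := fun j => if j = o (c j) then (d (c j) : ℂ) else 0
  let v : Option I → ι → ℂ := fun s => s.elim u (fun i => Pi.single i.1 1)
  have hv : LinearIndependent ℂ v := by
    rw [linearIndependent_option]
    constructor
    · have h1 := (Pi.basisFun ℂ ι).linearIndependent.comp (fun i : I => i.1) Subtype.val_injective
      have h2 : (⇑(Pi.basisFun ℂ ι) ∘ fun i : I => i.1) = (fun i : I => Pi.single i.1 (1 : ℂ)) := by
        funext i
        exact Pi.basisFun_apply ℂ ι i.1
      rw [h2] at h1
      exact h1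
    · intro hmem
      obtain ⟨k, hk⟩ := hd
      have h1 : Submodule.span ℂ (Set.range (v ∘ some)) ≤
          LinearMap.ker (LinearMap.proj (o k) : (ι → ℂ) →ₗ[ℂ] ℂ) := by
        rw [Submodule.span_le]
        rintro _ ⟨i, rfl⟩
        show (Pi.single i.1 (1 : ℂ) : ι → ℂ) (o k) = 0
        apply Pi.single_eq_of_ne
        intro h
        have h2 := (Finset.mem_filter.1 i.2).2.2
        apply h2
        rw [← h, ho]
      have h2 : (u : ι → ℂ) (o k) = 0 := h1 hmem
      have h3 : u (o k) = (d k : ℂ) := by
        show (if o k = o (c (o k)) then (d (c (o k)) : ℂ) else 0) = _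
        rw [ho, if_pos rfl]
      rw [h3] at h2
      have : d k = 0 := by exact_mod_cast h2
      omega
  have hcard : Fintype.card (Option I) = Dk c A d := by
    rw [Fintype.card_option, Fintype.card_coe]
    unfold Dk
    rw [Nat.add_comm]
    congr 1
    rw [Finset.card_eq_sum_card_fiberwise (f := c)
      (t := Finset.univ.filter (fun k => 1 ≤ d k))]
    · apply Finset.sum_congr rfl
      intro k hk
      rw [Finset.mem_filter] at hk
      have h1 : I.filter (fun i => c i = k) = (A.filter (fun i => c i = k)).erase (o k) := by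
        ext i
        simp only [I, Finset.mem_filter, Finset.mem_erase]
        constructor
        · rintro ⟨⟨h1, h2, h3⟩, h4⟩
          refine ⟨?_, h1, h4⟩
          rw [← h4]
          exact h3
        · rintro ⟨h1, h2, h3⟩
          refine ⟨⟨h2, ?_, ?_⟩, h3⟩
          · rw [h3]
            exact hk.2
          · rw [h3]
            exact h1
      rw [h1, Finset.card_erase_of_mem]
      rw [Finset.mem_filter]
      exact ⟨hoA k, ho k⟩
    · intro i hi
      have := (Finset.mem_filter.1 hi).2.1
      simp only [Finset.coe_filter, Finset.mem_univ, true_and]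
      exact this
  -- the polynomials
  have hpol : ∀ s : Option I, ∃ g ∈ Sec c A d, gradL A x g = v s := by
    intro s
    rcases s with _ | i
    · refine ⟨monomial (RKL_D c o d) 1, RKL_mono c A d _ (RKL_D_mem c A o ho hoA d), ?_⟩
      funext j
      rw [gradL_apply]
      show _ = u j
      have hval : eval x (pderiv j (monomial (RKL_D c o d) (1 : ℂ))) = u j := by
        rw [RKL_eval]
        have h1 : ∏ i, x i ^ ((RKL_D c o d - Finsupp.single j 1 : ι →₀ ℕ) i) = 1 := by
          apply Finset.prod_eq_one
          intro i _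
          by_cases h : i = o (c i)
          · rw [hx1 i h, one_pow]
          · have : (RKL_D c o d - Finsupp.single j 1 : ι →₀ ℕ) i = 0 := by
              rw [Finsupp.tsub_apply, RKL_D_apply, if_neg h, Nat.zero_sub]
            rw [this, pow_zero]
        rw [h1, mul_one, RKL_D_apply]
        show _ = (if j = o (c j) then (d (c j) : ℂ) else 0)
        by_cases h : j = o (c j)
        · rw [if_pos h, if_pos h]
        · rw [if_neg h, if_neg h, Nat.cast_zero]
      by_cases hj : j ∈ A
      · rw [if_pos hj, hval]
      · rw [if_neg hj]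
        show 0 = (if j = o (c j) then (d (c j) : ℂ) else 0)
        rw [if_neg]
        intro h
        exact hj (h ▸ hoA _)
    · obtain ⟨i, hi⟩ := i
      obtain ⟨hiA, hid, hio⟩ := Finset.mem_filter.1 hi
      refine ⟨monomial (RKL_M c o d i) 1, RKL_mono c A d _ (RKL_M_mem c A o ho hoA d i hiA hid), ?_⟩
      funext j
      rw [gradL_apply]
      show _ = (Pi.single i (1 : ℂ) : ι → ℂ) j
      by_cases hji : j = i
      · subst hji
        rw [if_pos hiA, Pi.single_eq_same, RKL_eval]
        have h1 : ∏ i', x i' ^ ((RKL_M c o d j - Finsupp.single j 1 : ι →₀ ℕ) i') = 1 := by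
          apply Finset.prod_eq_one
          intro i' _
          by_cases h : i' = o (c i')
          · rw [hx1 i' h, one_pow]
          · have : (RKL_M c o d j - Finsupp.single j 1 : ι →₀ ℕ) i' = 0 := by
              rw [Finsupp.tsub_apply, RKL_M_apply, if_neg h, Finsupp.single_apply]
              by_cases h2 : i' = j
              · rw [if_pos h2, if_pos h2.symm]
              · rw [if_neg h2, if_neg (Ne.symm h2)]
                rfl
            rw [this, pow_zero]
        rw [h1, mul_one, RKL_M_apply, if_pos rfl, if_neg hio]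
        norm_num
      · rw [Pi.single_eq_of_ne hji]
        by_cases hj : j ∈ A
        · rw [if_pos hj, RKL_eval]
          have h1 : ∏ i', x i' ^ ((RKL_M c o d i - Finsupp.single j 1 : ι →₀ ℕ) i') = 0 := by
            apply Finset.prod_eq_zero (Finset.mem_univ i)
            have : (RKL_M c o d i - Finsupp.single j 1 : ι →₀ ℕ) i = 1 := by
              rw [Finsupp.tsub_apply, RKL_M_apply, if_pos rfl, if_neg hio, Finsupp.single_apply,
                if_neg hji]
              rfl
            rw [this, pow_one, hx0 i hio]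
          rw [h1, mul_zero]
        · rw [if_neg hj]
  refine ⟨x, ?_, ?_⟩
  · rw [← hcard]
    apply RKL_rank _ v hv
    intro s
    obtain ⟨g, hg, hgv⟩ := hpol s
    refine ⟨⟨g, hg⟩, ?_⟩
    show gradL A (cut A x) g = v s
    rw [hcut, hgv]
  · rw [← hcard]
    apply RKL_rank _ v hv
    intro s
    obtain ⟨g, hg, hgv⟩ := hpol s
    refine ⟨⟨g, (hCUT c A B d hAB).1 hg⟩, ?_⟩
    show gradL A (cut A x) g = v s
    rw [hcut, hgv]

end Pool.Agent.SV
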